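import Pool.Agent.Helper44.BB.Stmts

set_option autoImplicit false

namespace Pool.Agent.Helper44.BB

open Finset

theorem inj_harm (x : ℝ) (hx : 1 ≤ x) :
    ∑ m ∈ Icc 1 ⌊x⌋₊, 1 / (m : ℝ) ≤ 1 + Real.log x := by
  have h := harmonic_floor_le_one_add_log x hx
  refine le_trans (le_of_eq ?_) h
  rw [harmonic_eq_sum_Icc]
  push_cast
  refine sum_congr rfl fun m _ => ?_
  rw [one_div]

theorem st_INJ : ST_INJ := by
  intro K x W g hW hx hK hinj
  set N := ⌊x⌋₊ with hN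
  set f : ℕ × ℕ → ℝ := fun p => (1 / (p.1 : ℝ)) * (1 / (p.2 : ℝ)) with hf
  have hf0 : ∀ p, 0 ≤ f p := fun p => by rw [hf]; positivity
  have h1 : ∀ c ∈ K, 1 / ((c.1 : ℝ) * c.2) ≤ (1 / W) * f (c.1 / g c, c.2) := by
    intro c hc
    obtain ⟨h1, h2, h3, h4, h5, h6⟩ := hK c hc
    have hg : 0 < g c := Nat.pos_of_dvd_of_pos h6 h1
    obtain ⟨m, hm⟩ := h6
    have hm0 : 0 < m := by
      rcases Nat.eq_zero_or_pos m with h | h
      · rw [h, mul_zero] at hm; omega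
      · exact h
    have e : c.1 / g c = m := by rw [hm, Nat.mul_div_cancel_left m hg]
    have hg' : (0 : ℝ) < g c := Nat.cast_pos.2 hg
    have hm' : (0 : ℝ) < m := Nat.cast_pos.2 hm0
    have hc2 : (0 : ℝ) < c.2 := Nat.cast_pos.2 h2
    have e1 : (c.1 : ℝ) = g c * m := by
      have := congrArg (Nat.cast : ℕ → ℝ) hm
      push_cast at this
      exact this
    have e2 : f (c.1 / g c, c.2) = 1 / ((m : ℝ) * c.2) := by
      rw [hf]
      simp only [e]
      rw [one_div_mul_one_div]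
    rw [e2, one_div_mul_one_div, e1]
    apply one_div_le_one_div_of_le (by positivity)
    rw [mul_assoc]
    exact mul_le_mul_of_nonneg_right h5 (by positivity)
  have h2 : ∑ c ∈ K, 1 / ((c.1 : ℝ) * c.2) ≤ (1 / W) * ∑ p ∈ Icc 1 N ×ˢ Icc 1 N, f p := by
    refine (sum_le_sum h1).trans ?_
    rw [← mul_sum]
    refine mul_le_mul_of_nonneg_left ?_ (by positivity)
    rw [← sum_image (g := fun c : ℕ × ℕ => (c.1 / g c, c.2)) (f := f) hinj]
    refine sum_le_sum_of_subset_of_nonneg ?_ fun p _ _ => hf0 p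
    intro p hp
    obtain ⟨c, hc, rfl⟩ := mem_image.1 hp
    obtain ⟨h1, h2, h3, h4, h5, h6⟩ := hK c hc
    have hg : 0 < g c := Nat.pos_of_dvd_of_pos h6 h1
    have a1 : c.1 ≤ N := Nat.le_floor h3
    have a2 : c.2 ≤ N := Nat.le_floor h4
    have a3 : 0 < c.1 / g c := Nat.div_pos (Nat.le_of_dvd h1 h6) hg
    have a4 : c.1 / g c ≤ c.1 := Nat.div_le_self _ _
    simp only [mem_product, mem_Icc]
    omega
  have h3 : ∑ p ∈ Icc 1 N ×ˢ Icc 1 N, f p = (∑ m ∈ Icc 1 N, 1 / (m : ℝ)) ^ 2 := by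
    rw [sum_product, sq, sum_mul_sum]
  have h4 := inj_harm x hx
  have h5 : 0 ≤ ∑ m ∈ Icc 1 N, 1 / (m : ℝ) := sum_nonneg fun _ _ => by positivity
  rw [h3] at h2
  refine h2.trans ?_
  rw [one_div_mul_eq_div]
  refine div_le_div_of_nonneg_right ?_ hW.le
  exact pow_le_pow_left₀ h5 h4 2

end Pool.Agent.Helper44.BB
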